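import Pool.Agent.TH590.JH.Theory

/-!
# Pure motives
-/

set_option autoImplicit false

open CategoryTheory CategoryTheory.Limits AlgebraicGeometry

namespace Pool.Agent.TH590.JH

open Pool.Agent.TH90.Cub

universe v u

/-- `X` is smooth and projective over `k`. -/
def SmoothProjective {k : Type} [CommRing k] {X : Scheme.{0}}
    (f : X ⟶ Spec (CommRingCat.of k)) : Prop :=
  Smooth f ∧ IsProper f ∧ IsProjective f

theorem SmoothProjective.ft {k : Type} [CommRing k] {X : Scheme.{0}}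
    {f : X ⟶ Spec (CommRingCat.of k)} (h : SmoothProjective f) : FT True k f := by
  have := h.2.1
  exact ⟨inferInstance, inferInstance, fun _ => inferInstance⟩

attribute [local instance] Abelian.hasFiniteBiproducts

variable {k : Type} [CommRing k] {𝓐 : Type u} [Category.{v} 𝓐] [Abelian 𝓐]

/-- A *pure motive of weight `w`*: a finite direct sum of simple subquotients of motives
`H^i(X)(m)`, `X` smooth projective over `k`, `i - 2 m = w`. -/
def Theory.IsPure (T : Theory k 𝓐) (w : ℤ) (M : 𝓐) : Prop :=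
  ∃ (n : ℕ) (S : Fin n → 𝓐), (∀ a, Simple (S a) ∧
    ∃ (X : Scheme.{0}) (f : X ⟶ Spec (CommRingCat.of k)) (i m : ℤ), SmoothProjective f ∧
      i - 2 * m = w ∧ SubQuot (S a) ((T.tw m).obj (T.H i X f))) ∧ Nonempty (M ≅ ⨁ S)

/-- A theory of motives with weights: every simple subquotient of every `H_c^i(X)(m)` is a pure
motive. -/
structure WeightTheory (k : Type) [CommRing k] (𝓐 : Type u) [Category.{v} 𝓐] [Abelian 𝓐]
    extends Theory k 𝓐 where
  pure : ∀ {X : Scheme.{0}} (f : X ⟶ Spec (CommRingCat.of k)), FT True k f → ∀ (i m : ℤ) (M : 𝓐),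
    Simple M → SubQuot M ((toTheory.tw m).obj (toTheory.H i X f)) →
    ∃ w : ℤ, toTheory.IsPure w M

theorem Theory.IsPure.of_simple {T : Theory k 𝓐} {w : ℤ} {M : 𝓐} (hM : Simple M)
    (h : ∃ (X : Scheme.{0}) (f : X ⟶ Spec (CommRingCat.of k)) (i m : ℤ), SmoothProjective f ∧
      i - 2 * m = w ∧ SubQuot M ((T.tw m).obj (T.H i X f))) : T.IsPure w M := by
  refine ⟨1, fun _ => M, fun _ => ⟨hM, h⟩, ⟨?_⟩⟩
  exact (biproductUniqueIso (fun _ : Fin 1 => M)).symm

theorem cubic_ft {n r : ℕ} (g : Fin (r + 1) → MvPolynomial (Fin n) k) :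
    FT True k (str k (Cubic g)) := ft_hyp g

theorem cubic_smooth {n r : ℕ} (g : Fin (r + 1) → MvPolynomial (Fin n) k) :
    Smooth (str k (Cubic g)) := by
  have h2 : Algebra.Smooth k (MvPolynomial (Fin n) k) := smooth_mv k n
  exact hyp_smooth_scheme k _ g

/-- The motive `H_c^j(C)` of the hypersurface `C` with the equation `g_0 t_0 + ⋯ + g_r t_r = 1`. -/
noncomputable def Theory.HC (T : Theory k 𝓐) (j : ℤ) {n r : ℕ}
    (g : Fin (r + 1) → MvPolynomial (Fin n) k) : 𝓐 :=
  T.H j (Spec (CommRingCat.of (Cubic g))) (str k (Cubic g))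

/-- `M` is one of the motives `H_c^j(C)`, `C` a hypersurface `g_0 t_0 + ⋯ + g_r t_r = 1`, each `g_i`
being of the form `x_a x_b - x_c`, `x_a + x_b - x_c` or `x_a - s` with `s ∈ S`. -/
def Theory.IsHC (T : Theory k 𝓐) (S : Set k) (M : 𝓐) : Prop :=
  ∃ (n r : ℕ) (g : Fin (r + 1) → MvPolynomial (Fin n) k) (j : ℤ), (∀ i, IsGate S (g i)) ∧
    M = T.HC j g

/-- All hypersurfaces `g_0 t_0 + ⋯ + g_r t_r = 1` over `k`, the `g_i` being polynomials in
`x_1, …, x_n`, are smooth over `k`. -/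
def CubicsSmooth (k : Type) [CommRing k] : Prop :=
  ∀ (n r : ℕ) (g : Fin (r + 1) → MvPolynomial (Fin n) k), Smooth (str k (Cubic g))

theorem cubicsSmooth (k : Type) [CommRing k] : CubicsSmooth k := fun _ _ g => cubic_smooth g

theorem WeightTheory.pure_of_cubic (T : WeightTheory k 𝓐) {S : Set k} {M : 𝓐} (hM : Simple M)
    (h : T.FromCubic S M) : ∃ w : ℤ, T.IsPure w M := by
  obtain ⟨n, r, g, hg, j, m, hq⟩ := h
  exact T.pure (str k (Cubic g)) (cubic_ft g) j m M hM hq

end Pool.Agent.TH590.JH
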