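import Pool.Agent.TH90.Cub.Util

/-!
# Gates over a field: constants generating the field are enough
-/

set_option autoImplicit false

open MvPolynomial CategoryTheory AlgebraicGeometry

namespace Pool.Agent.TH590.JH

open Pool.Agent.TH90.Cub

variable {k : Type} [Field k] {S : Set k} {A : Type} [CommRing A] [Algebra k A]

theorem ext2 {n : ℕ} {v : Fin n → A} (hv : Good S v) (e : MvPolynomial (Fin n) k)
    (g : MvPolynomial (Fin (n + 1)) k) (hg : IsGate S g)
    (hgw : aeval (R := k) (Fin.snoc (α := fun _ => A) v (aeval (R := k) v e)) g = 0)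
    (hgJ' : ∀ J : Ideal (MvPolynomial (Fin (n + 1)) k), g ∈ J →
      (∀ p ∈ RingHom.ker (aeval (R := k) v), MvPolynomial.rename Fin.castSucc p ∈ J) →
      X (Fin.last n) - MvPolynomial.rename Fin.castSucc e ∈ J) :
    Good S (Fin.snoc (α := fun _ => A) v (aeval (R := k) v e)) := by
  set w : Fin (n + 1) → A := Fin.snoc (α := fun _ => A) v (aeval (R := k) v e) with hw
  have hwc : ∀ p : MvPolynomial (Fin n) k, aeval (R := k) w (MvPolynomial.rename Fin.castSucc p)
      = aeval (R := k) v p := by
    intro p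
    rw [MvPolynomial.aeval_rename]
    congr 2
    funext i
    simp [hw]
  obtain ⟨hs, L, hL, hker⟩ := hv
  refine ⟨fun a => ?_, g :: L.map (MvPolynomial.rename Fin.castSucc), ?_, ?_⟩
  · obtain ⟨p, hp⟩ := hs a
    exact ⟨MvPolynomial.rename Fin.castSucc p, by rw [hwc, hp]⟩
  · intro g' hg'
    rcases List.mem_cons.mp hg' with rfl | h
    · exact hg
    · obtain ⟨g0, h0, rfl⟩ := List.mem_map.mp h
      exact (hL g0 h0).rename _
  · set J : Ideal (MvPolynomial (Fin (n + 1)) k) :=
      Ideal.span {g' | g' ∈ g :: L.map (MvPolynomial.rename Fin.castSucc)} with hJ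
    have hLJ : ∀ p ∈ RingHom.ker (aeval (R := k) v), MvPolynomial.rename Fin.castSucc p ∈ J := by
      intro p hp
      rw [hker] at hp
      have h2 : Ideal.span {g | g ∈ L} ≤ J.comap (MvPolynomial.rename Fin.castSucc).toRingHom := by
        rw [Ideal.span_le]
        intro g0 h0
        exact Ideal.subset_span (by
          simp only [List.mem_cons, List.mem_map, Set.mem_ofPred_eq]
          exact Or.inr ⟨g0, h0, rfl⟩)
      exact h2 hp
    have hgJ : X (Fin.last n) - MvPolynomial.rename Fin.castSucc e ∈ J :=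
      hgJ' J (Ideal.subset_span (by simp)) hLJ
    apply le_antisymm
    · intro p hp
      let σ : MvPolynomial (Fin (n + 1)) k →ₐ[k] MvPolynomial (Fin n) k :=
        aeval (Fin.snoc (α := fun _ => MvPolynomial (Fin n) k) X e)
      have hσ : ∀ q : MvPolynomial (Fin (n + 1)) k,
          q - MvPolynomial.rename Fin.castSucc (σ q) ∈ J := by
        intro q
        induction q using MvPolynomial.induction_on with
        | C a => simp [σ]
        | add p q hp hq =>
          have := J.add_mem hp hq
          rw [map_add, map_add]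
          convert this using 1
          ring
        | mul_X p i hp =>
          rw [map_mul, map_mul]
          have hi : X i - MvPolynomial.rename Fin.castSucc (σ (X i)) ∈ J := by
            refine Fin.lastCases ?_ (fun j => ?_) i
            · simpa [σ] using hgJ
            · simp [σ]
          have h3 := J.add_mem (J.mul_mem_right (X i) hp)
            (J.mul_mem_left (MvPolynomial.rename Fin.castSucc (σ p)) hi)
          convert h3 using 1
          ring
      have hσw : aeval (R := k) v (σ p) = aeval (R := k) w p := by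
        have : (aeval (R := k) v).comp σ = aeval (R := k) w := by
          apply MvPolynomial.algHom_ext
          intro i
          refine Fin.lastCases ?_ (fun j => ?_) i
          · simp [σ, hw]
          · simp [σ, hw]
        exact congrArg (fun f => f p) this
      have h4 : σ p ∈ RingHom.ker (aeval (R := k) v) := by
        rw [RingHom.mem_ker, hσw]
        exact hp
      have h5 := J.add_mem (hσ p) (hLJ _ h4)
      simpa using h5
    · rw [hJ, Ideal.span_le]
      intro g' hg'
      simp only [List.mem_cons, List.mem_map, Set.mem_ofPred_eq] at hg'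
      rcases hg' with rfl | ⟨g0, h0, rfl⟩
      · simpa only [SetLike.mem_coe, RingHom.mem_ker] using hgw
      · simp only [SetLike.mem_coe, RingHom.mem_ker]
        rw [hwc]
        have : g0 ∈ RingHom.ker (aeval (R := k) v) := by
          rw [hker]
          exact Ideal.subset_span h0
        exact this

/-- `a` can be added to the values -/
def Reach (S : Set k) {n₀ : ℕ} (v₀ : Fin n₀ → A) (a : A) : Prop :=
  ∀ (n : ℕ) (v : Fin n → A), Good S v → Set.range v₀ ⊆ Set.range v →
    ∃ (m : ℕ) (w : Fin m → A), Good S w ∧ Set.range v ⊆ Set.range w ∧ a ∈ Set.range w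

theorem reach_zero {n₀ : ℕ} (v₀ : Fin n₀ → A) : Reach S v₀ 0 := by
  intro n v hv _
  have := hv.ext 0 _ (IsGate.add (S := S) (Fin.last n) (Fin.last n) (Fin.last n))
    (Or.inl (by simp))
  rw [map_zero] at this
  exact ⟨n + 1, _, this, range_snoc v 0⟩

theorem reach_const {n₀ : ℕ} (v₀ : Fin n₀ → A) (s : k) (hs : s ∈ S) :
    Reach S v₀ (algebraMap k A s) := by
  intro n v hv _
  have := hv.ext (C s) _ (IsGate.const (S := S) (Fin.last n) s hs) (Or.inl (by simp))
  rw [show aeval (R := k) v (C s) = algebraMap k A s by simp] at this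
  exact ⟨n + 1, _, this, range_snoc v _⟩

theorem reach_add {n₀ : ℕ} {v₀ : Fin n₀ → A} {x y : A} (hx : Reach S v₀ x) (hy : Reach S v₀ y) :
    Reach S v₀ (x + y) := by
  intro n v hv hvv
  obtain ⟨m, w, hw, hvw, hxw⟩ := hx n v hv hvv
  obtain ⟨m', w', hw', hww', hyw'⟩ := hy m w hw (hvv.trans hvw)
  obtain ⟨i, hi⟩ := hww' hxw
  obtain ⟨j, hj⟩ := hyw'
  have := hw'.ext (X i + X j) _ (IsGate.add (S := S) i.castSucc j.castSucc (Fin.last m'))
    (Or.inr (by simp))
  rw [show aeval (R := k) w' (X i + X j) = x + y by simp [hi, hj]] at this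
  exact ⟨m' + 1, _, this, (hvw.trans hww').trans (range_snoc w' _).1, (range_snoc w' _).2⟩

theorem reach_mul {n₀ : ℕ} {v₀ : Fin n₀ → A} {x y : A} (hx : Reach S v₀ x) (hy : Reach S v₀ y) :
    Reach S v₀ (x * y) := by
  intro n v hv hvv
  obtain ⟨m, w, hw, hvw, hxw⟩ := hx n v hv hvv
  obtain ⟨m', w', hw', hww', hyw'⟩ := hy m w hw (hvv.trans hvw)
  obtain ⟨i, hi⟩ := hww' hxw
  obtain ⟨j, hj⟩ := hyw'
  have := hw'.ext (X i * X j) _ (IsGate.mul (S := S) i.castSucc j.castSucc (Fin.last m'))
    (Or.inr (by simp))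
  rw [show aeval (R := k) w' (X i * X j) = x * y by simp [hi, hj]] at this
  exact ⟨m' + 1, _, this, (hvw.trans hww').trans (range_snoc w' _).1, (range_snoc w' _).2⟩

theorem reach_neg {n₀ : ℕ} {v₀ : Fin n₀ → A} {x : A} (hx : Reach S v₀ x) :
    Reach S v₀ (-x) := by
  intro n v hv hvv
  obtain ⟨m, w, hw, hvw, hxw⟩ := hx n v hv hvv
  obtain ⟨m', w', hw', hww', h0w'⟩ := reach_zero v₀ m w hw (hvv.trans hvw)
  obtain ⟨i, hi⟩ := hww' hxw
  obtain ⟨j, hj⟩ := h0w'
  have := hw'.ext (X j - X i) _ (IsGate.add (S := S) (Fin.last m') i.castSucc j.castSucc)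
    (Or.inl (by simp; ring))
  rw [show aeval (R := k) w' (X j - X i) = -x by simp [hi, hj]] at this
  exact ⟨m' + 1, _, this, (hvw.trans hww').trans (range_snoc w' _).1, (range_snoc w' _).2⟩

theorem reach_inv (h1 : (1 : k) ∈ S) {n₀ : ℕ} {v₀ : Fin n₀ → A} {c : k}
    (hx : Reach S v₀ (algebraMap k A c)) : Reach S v₀ (algebraMap k A c⁻¹) := by
  by_cases hc : c = 0
  · rw [hc, inv_zero, map_zero]
    exact reach_zero v₀
  intro n v hv hvv
  obtain ⟨m, w, hw, hvw, hxw⟩ := hx n v hv hvv
  obtain ⟨m', w', hw', hww', h1w'⟩ := reach_const v₀ 1 h1 m w hw (hvv.trans hvw)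
  obtain ⟨i, hi⟩ := hww' hxw
  obtain ⟨j, hj⟩ := h1w'
  have := ext2 hw' (C c⁻¹) _ (IsGate.mul (S := S) (Fin.last m') i.castSucc j.castSucc) (by
      rw [map_sub, map_mul, aeval_X, aeval_X, aeval_X, Fin.snoc_last, Fin.snoc_castSucc,
        Fin.snoc_castSucc, hi, hj, aeval_C, ← map_mul, ← map_sub, inv_mul_cancel₀ hc, sub_self,
        map_zero]) (by
      intro J hg hker
      have h3 : MvPolynomial.rename Fin.castSucc (X i - C c : MvPolynomial (Fin m') k) ∈ J :=
        hker _ (by rw [RingHom.mem_ker, map_sub, aeval_X, aeval_C, hi, sub_self])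
      have h4 : MvPolynomial.rename Fin.castSucc (X j - C 1 : MvPolynomial (Fin m') k) ∈ J :=
        hker _ (by rw [RingHom.mem_ker, map_sub, aeval_X, aeval_C, hj, sub_self])
      rw [map_sub, rename_X, rename_C] at h3 h4
      rw [rename_C]
      have h5 : (C c⁻¹ : MvPolynomial (Fin (m' + 1)) k) * ((X (Fin.last m') * X i.castSucc -
          X j.castSucc) - X (Fin.last m') * (X i.castSucc - C c) + (X j.castSucc - C 1)) ∈ J :=
        J.mul_mem_left _ (J.add_mem (J.sub_mem hg (J.mul_mem_left _ h3)) h4)
      have h6 : (C c⁻¹ : MvPolynomial (Fin (m' + 1)) k) * C c = 1 := by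
        rw [← C_mul, inv_mul_cancel₀ hc, C_1]
      convert h5 using 1
      rw [C_1]
      linear_combination (-X (Fin.last m') : MvPolynomial (Fin (m' + 1)) k) * h6)
  rw [show aeval (R := k) w' (C c⁻¹) = algebraMap k A c⁻¹ by simp] at this
  exact ⟨m' + 1, _, this, (hvw.trans hww').trans (range_snoc w' _).1, (range_snoc w' _).2⟩

theorem reach (hS : Subfield.closure S = ⊤) (h1 : (1 : k) ∈ S) {n₀ : ℕ} {v₀ : Fin n₀ → A}
    (hv₀ : Good S v₀) (a : A) : Reach S v₀ a := by
  have hconst : ∀ c : k, Reach S v₀ (algebraMap k A c) := by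
    intro c
    have hc : c ∈ Subfield.closure S := by rw [hS]; trivial
    induction hc using Subfield.closure_induction with
    | mem x hx => exact reach_const v₀ x hx
    | one => exact reach_const v₀ 1 h1
    | add x y _ _ hx hy => rw [map_add]; exact reach_add hx hy
    | neg x _ hx => rw [map_neg]; exact reach_neg hx
    | inv x _ hx => exact reach_inv h1 hx
    | mul x y _ _ hx hy => rw [map_mul]; exact reach_mul hx hy
  obtain ⟨p, rfl⟩ := hv₀.1 a
  induction p using MvPolynomial.induction_on with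
  | C c =>
    rw [show aeval (R := k) v₀ (C c) = algebraMap k A c by simp]
    exact hconst c
  | add p q hp hq => rw [map_add]; exact reach_add hp hq
  | mul_X p i hp =>
    rw [map_mul, MvPolynomial.aeval_X]
    refine reach_mul hp ?_
    intro n v hv hvv
    exact ⟨n, v, hv, subset_rfl, hvv ⟨i, rfl⟩⟩

theorem reachList (hS : Subfield.closure S = ⊤) (h1 : (1 : k) ∈ S) {n₀ : ℕ} {v₀ : Fin n₀ → A}
    (hv₀ : Good S v₀) (l : List A) : ∃ (m : ℕ) (w : Fin m → A), Good S w ∧
        Set.range v₀ ⊆ Set.range w ∧ ∀ a ∈ l, a ∈ Set.range w := by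
  induction l with
  | nil => exact ⟨n₀, v₀, hv₀, subset_rfl, by simp⟩
  | cons a l ih =>
    obtain ⟨m, w, hw, hvw, hl⟩ := ih
    obtain ⟨m', w', hw', hww', ha⟩ := reach hS h1 hv₀ a m w hw hvw
    refine ⟨m', w', hw', hvw.trans hww', ?_⟩
    intro b hb
    rcases List.mem_cons.mp hb with rfl | h
    · exact ha
    · exact hww' (hl b h)

/-- Every finitely presented algebra is given by gates. -/
theorem exists_good' (hS : Subfield.closure S = ⊤) (h1 : (1 : k) ∈ S)
    (hA : Algebra.FinitePresentation k A) : ∃ (n : ℕ) (v : Fin n → A), Good S v := by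
  obtain ⟨m, f, hf, ⟨s, hs⟩⟩ := hA.out
  obtain ⟨n, w, hw, -, hl⟩ := reachList hS h1 (good_X (S := S) (k := k) m) s.toList
  refine ⟨n, fun i => f (w i), ?_⟩
  have hcomp : aeval (R := k) (fun i => f (w i)) = f.comp (aeval (R := k) w) := by
    apply MvPolynomial.algHom_ext
    intro i
    simp
  obtain ⟨hws, L, hL, hker⟩ := hw
  choose idx hidx using fun a : {a // a ∈ s.toList} => hl a.1 a.2
  refine ⟨?_, L ++ s.toList.attach.map (fun a => X (idx a)), ?_, ?_⟩
  · rw [hcomp]
    exact hf.comp hws
  · intro g hg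
    rcases List.mem_append.mp hg with h | h
    · exact hL g h
    · obtain ⟨a, _, rfl⟩ := List.mem_map.mp h
      have := IsGate.add (S := S) (k := k) (idx a) (idx a) (idx a)
      simpa using this
  · rw [hcomp]
    set J : Ideal (MvPolynomial (Fin n) k) :=
      Ideal.span {g | g ∈ L ++ s.toList.attach.map (fun a => X (idx a))} with hJ
    apply le_antisymm
    · intro p hp
      rw [RingHom.mem_ker, AlgHom.comp_apply] at hp
      have hp' : aeval (R := k) w p ∈ Ideal.span (s : Set (MvPolynomial (Fin m) k)) := by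
        rw [hs]
        exact hp
      -- lift the combination
      have hlift : ∀ q ∈ Ideal.span (s : Set (MvPolynomial (Fin m) k)),
          ∃ p' ∈ J, aeval (R := k) w p' = q := by
        intro q hq
        induction hq using Submodule.span_induction with
        | mem x hx =>
          have hx' : x ∈ s.toList := by simpa using hx
          refine ⟨X (idx ⟨x, hx'⟩), Ideal.subset_span ?_, ?_⟩
          · simp only [List.mem_append, List.mem_map]
            exact Or.inr ⟨⟨x, hx'⟩, by simp, rfl⟩
          · rw [MvPolynomial.aeval_X]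
            exact hidx ⟨x, hx'⟩
        | zero => exact ⟨0, J.zero_mem, by simp⟩
        | add x y _ _ hx hy =>
          obtain ⟨p1, h1, h2⟩ := hx
          obtain ⟨p2, h3, h4⟩ := hy
          exact ⟨p1 + p2, J.add_mem h1 h3, by rw [map_add, h2, h4]⟩
        | smul c x _ hx =>
          obtain ⟨p1, h1, h2⟩ := hx
          obtain ⟨c', hc'⟩ := hws c
          exact ⟨c' * p1, J.mul_mem_left _ h1, by rw [map_mul, hc', h2]; rfl⟩
      obtain ⟨p', hp'J, hp'w⟩ := hlift _ hp'
      have h5 : p - p' ∈ RingHom.ker (aeval (R := k) w) := by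
        rw [RingHom.mem_ker, map_sub, hp'w, sub_self]
      rw [hker] at h5
      have h6 : Ideal.span {g | g ∈ L} ≤ J := Ideal.span_mono (fun g hg =>
        List.mem_append.mpr (Or.inl hg))
      have := J.add_mem (h6 h5) hp'J
      simpa using this
    · rw [hJ, Ideal.span_le]
      intro g hg
      simp only [SetLike.mem_coe, RingHom.mem_ker, AlgHom.comp_apply]
      rcases List.mem_append.mp hg with hg | hg
      · have : g ∈ RingHom.ker (aeval (R := k) w) := by
          rw [hker]
          exact Ideal.subset_span hg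
        rw [RingHom.mem_ker] at this
        rw [this, map_zero]
      · obtain ⟨a, _, rfl⟩ := List.mem_map.mp hg
        rw [MvPolynomial.aeval_X, hidx a]
        have : a.1 ∈ RingHom.ker (f : MvPolynomial (Fin m) k →+* A) := by
          have h7 : a.1 ∈ Ideal.span (s : Set (MvPolynomial (Fin m) k)) :=
            Ideal.subset_span (by simpa using a.2)
          rw [hs] at h7
          exact h7
        exact this

variable {sep : Prop}
  {P : ∀ X : Scheme.{0}, (X ⟶ Spec (CommRingCat.of k)) → Prop}

theorem all_of_W' (hS : Subfield.closure S = ⊤) (h1 : (1 : k) ∈ S)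
    (hP : IsDevissage sep k P)
    (W : ∀ (A : Type) [CommRing A] [Algebra k A], Set A → Prop)
    (hW1 : ∀ (A : Type) [CommRing A] [Algebra k A] (Γ : Set A), Algebra.FiniteType k A →
      W A Γ → PR P A)
    (hW2 : ∀ (A : Type) [CommRing A] [Algebra k A] (Γ : Set A) (g : A), Algebra.FiniteType k A →
      W A Γ → g ∈ Γ → W (A ⧸ Ideal.span {g}) (Ideal.Quotient.mk (Ideal.span {g}) '' Γ))
    (hW : ∀ n : ℕ, W (MvPolynomial (Fin n) k) {g | IsGate S g})
    {X : Scheme.{0}} (f : X ⟶ Spec (CommRingCat.of k)) (hf : FT sep k f) : P X f := by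
  refine of_rings hP ?_ f hf
  intro A _ _ hA
  have hfp : Algebra.FinitePresentation k A := (Algebra.FinitePresentation.of_finiteType).mp hA
  obtain ⟨n, v, hs, L, hL, hker⟩ := exists_good' hS h1 hfp
  exact iterate W hP hW1 hW2 L.length (MvPolynomial (Fin n) k) {g | IsGate S g} L rfl inferInstance
    (hW n) hL A (MvPolynomial.aeval v) hs hker

/-- `P` holds for all schemes of finite type over the field `k` if it is invariant under
`A ↦ A[T]` and holds for the cubic hypersurfaces `g_0 t_0 + ⋯ + g_r t_r = 1`, `g_i` gates with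
constants in a set generating the field `k`. -/
theorem all_of_cubics' (hS : Subfield.closure S = ⊤)
    (h1 : (1 : k) ∈ S) (hP : IsDevissage sep k P) (hA1 : A1 P)
    (h : ∀ (n r : ℕ) (g : Fin (r + 1) → MvPolynomial (Fin n) k), (∀ i, IsGate S (g i)) →
      PR P (Hyp (MvPolynomial (Fin n) k) g))
    {X : Scheme.{0}} (f : X ⟶ Spec (CommRingCat.of k)) (hf : FT sep k f) : P X f := by
  have hk : PR P k := by
    have h2 := h 1 1 ![MvPolynomial.X 0 + MvPolynomial.X 0 - MvPolynomial.X 0,
      MvPolynomial.X 0 - MvPolynomial.C 1] (by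
        intro i
        fin_cases i
        · exact IsGate.add 0 0 0
        · exact IsGate.const 0 1 h1)
    have hfin : Algebra.FiniteType k (MvPolynomial (Fin 1) k) := inferInstance
    have h3 := hypTwo hP hfin _ (by simp) h2
    have h4 := (hA1 _ hfin).mpr h3
    have h5 : PR P (Polynomial (MvPolynomial (Fin 0) k)) :=
      PR.iso hP (((MvPolynomial.finSuccEquiv k 0)).restrictScalars k)
        (ft_poly (ft_mv inferInstance 0)) h4
    have h6 := (hA1 _ (ft_mv inferInstance 0)).mpr h5
    exact PR.iso hP ((MvPolynomial.isEmptyAlgEquiv k (Fin 0))) inferInstance h6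
  exact all_of_W' hS h1 hP (fun A _ _ Γ => WB P A Γ) (fun A _ _ Γ hA hW => hW.1)
    (fun A _ _ Γ g hA hW hg => WB.step hP hA1 A Γ g hA hW hg)
    (fun n => ⟨PR.mv hP hA1 inferInstance hk n, fun r g hg => h n r g hg⟩) f hf

theorem closure_one_rat : Subfield.closure ({1} : Set ℚ) = ⊤ := by
  rw [eq_top_iff]
  intro x _
  have h := SubfieldClass.ratCast_mem (Subfield.closure ({1} : Set ℚ)) x
  simpa using h

end Pool.Agent.TH590.JH
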