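import Mathlib

/-!
# Simple subquotients of objects of an abelian category, and exact sequences
-/

set_option autoImplicit false

open CategoryTheory CategoryTheory.Limits

namespace Pool.Agent.TH590.JH

universe v u

variable {𝓐 : Type u} [Category.{v} 𝓐]

/-- `S` is a subquotient of `M`: a quotient of a subobject `Y` of `M`. -/
def SubQuot (S M : 𝓐) : Prop :=
  ∃ (Y : 𝓐) (i : Y ⟶ M) (p : Y ⟶ S), Mono i ∧ Epi p

theorem SubQuot.refl (M : 𝓐) : SubQuot M M := ⟨M, 𝟙 M, 𝟙 M, inferInstance, inferInstance⟩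

theorem SubQuot.of_iso {S M N : 𝓐} (h : SubQuot S M) (e : M ≅ N) : SubQuot S N := by
  obtain ⟨Y, i, p, hi, hp⟩ := h
  exact ⟨Y, i ≫ e.hom, p, mono_comp _ _, hp⟩

theorem SubQuot.of_iso_left {S S' M : 𝓐} (h : SubQuot S M) (e : S ≅ S') : SubQuot S' M := by
  obtain ⟨Y, i, p, hi, hp⟩ := h
  exact ⟨Y, i, p ≫ e.hom, hi, epi_comp _ _⟩

theorem SubQuot.map {S M : 𝓐} (h : SubQuot S M) (F : 𝓐 ⥤ 𝓐) [F.PreservesMonomorphisms]
    [F.PreservesEpimorphisms] : SubQuot (F.obj S) (F.obj M) := by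
  obtain ⟨Y, i, p, hi, hp⟩ := h
  exact ⟨F.obj Y, F.map i, F.map p, inferInstance, inferInstance⟩

variable [Abelian 𝓐]

theorem SubQuot.trans {S M N : 𝓐} (h : SubQuot S M) (h' : SubQuot M N) : SubQuot S N := by
  obtain ⟨Y, i, p, hi, hp⟩ := h
  obtain ⟨Z, j, q, hj, hq⟩ := h'
  -- `Y ×_M Z ⊆ Z ⊆ N` and `Y ×_M Z → Y → S`
  exact ⟨pullback i q, pullback.snd i q ≫ j, pullback.fst i q ≫ p, mono_comp _ _, epi_comp _ _⟩

theorem SubQuot.not_zero {S M : 𝓐} [Simple S] (hM : IsZero M) : ¬ SubQuot S M := by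
  rintro ⟨Y, i, p, hi, hp⟩
  have hY : IsZero Y := IsZero.of_mono i hM
  exact Simple.not_isZero S (IsZero.of_epi p hY)

/-- A simple subquotient of the middle term of an exact sequence is a subquotient of one of the
outer terms. -/
theorem SubQuot.exact {S A B C : 𝓐} [Simple S] (f : A ⟶ B) (g : B ⟶ C) (w : f ≫ g = 0)
    (hex : (ShortComplex.mk f g w).Exact) (h : SubQuot S B) : SubQuot S A ∨ SubQuot S C := by
  obtain ⟨Y, i, p, hi, hp⟩ := h
  let κ : kernel (i ≫ g) ⟶ Y := kernel.ι (i ≫ g)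
  have hκ : (κ ≫ i) ≫ g = 0 := by rw [Category.assoc]; exact kernel.condition (i ≫ g)
  by_cases h0 : κ ≫ p = 0
  · -- `S` is a quotient of the image of `i ≫ g`
    right
    let I := Abelian.factorThruImage (i ≫ g)
    have hI : Epi I := inferInstance
    have hk : kernel.ι I ≫ (i ≫ g) = 0 := by
      have h1 : I ≫ Abelian.image.ι (i ≫ g) = i ≫ g := Abelian.image.fac (i ≫ g)
      have h2 : kernel.ι I ≫ I ≫ Abelian.image.ι (i ≫ g) = 0 := by
        rw [← Category.assoc, kernel.condition, zero_comp]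
      rwa [h1] at h2
    have hkp : kernel.ι I ≫ p = 0 := by
      have h1 : kernel.ι I = kernel.lift (i ≫ g) (kernel.ι I) hk ≫ κ := by
        simp only [κ, kernel.lift_ι]
      rw [h1, Category.assoc, h0, comp_zero]
    let q : Abelian.image (i ≫ g) ⟶ S := Abelian.epiDesc I p hkp
    have hq : I ≫ q = p := Abelian.comp_epiDesc I p hkp
    refine ⟨Abelian.image (i ≫ g), Abelian.image.ι (i ≫ g), q, inferInstance, ?_⟩
    have : Epi (I ≫ q) := by rw [hq]; exact hp
    exact epi_of_epi I q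
  · left
    have hepi : Epi (κ ≫ p) := epi_of_nonzero_to_simple h0
    have hm : Mono (κ ≫ i) := mono_comp _ _
    obtain ⟨A', π, hπ, x₁, hx⟩ :=
      (ShortComplex.exact_iff_exact_up_to_refinements _).mp hex (κ ≫ i) hκ
    simp only at x₁ hx
    let P := pullback f (κ ≫ i)
    have hs : Epi (pullback.snd f (κ ≫ i)) := by
      have h1 : pullback.lift (f := f) (g := κ ≫ i) x₁ π hx.symm ≫ pullback.snd f (κ ≫ i) = π :=
        pullback.lift_snd _ _ _
      have h2 : Epi (pullback.lift (f := f) (g := κ ≫ i) x₁ π hx.symm ≫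
          pullback.snd f (κ ≫ i)) := by
        rw [h1]; exact hπ
      exact epi_of_epi (pullback.lift (f := f) (g := κ ≫ i) x₁ π hx.symm) _
    exact ⟨P, pullback.fst f (κ ≫ i), pullback.snd f (κ ≫ i) ≫ (κ ≫ p), inferInstance,
      epi_comp _ _⟩

end Pool.Agent.TH590.JH
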