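import Pool.Agent.TH590.JH.Field
import Pool.Agent.TH590.JH.Sub

/-!
# Simple constituents of compactly supported cohomology
-/

set_option autoImplicit false

open CategoryTheory CategoryTheory.Limits AlgebraicGeometry

namespace Pool.Agent.TH590.JH

open Pool.Agent.TH90.Cub

universe v u

/-- A theory of motives over `k`, seen through compactly supported cohomology: an abelian category
with Tate twists `M ↦ M(n)` and, for separated schemes `X` of finite type over `k`, objects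
`H_c^i(X)`, which only depend on the isomorphism class of `X`, vanish for empty `X`, and satisfy
`H_c^{i+2}(X × 𝔸¹) ≅ H_c^i(X)(-1)` (for affine `X`) and the long exact sequences
`H_c^i(X \ Z) → H_c^i(X) → H_c^i(Z) → H_c^{i+1}(X \ Z)` for closed `Z ⊆ X`. -/
structure Theory (k : Type) [CommRing k] (𝓐 : Type u) [Category.{v} 𝓐] [Abelian 𝓐] where
  /-- the Tate twist `M ↦ M(n)` -/
  tw : ℤ → 𝓐 ⥤ 𝓐
  tw_zero : Nonempty (tw 0 ≅ 𝟭 𝓐)
  tw_add : ∀ m n : ℤ, Nonempty (tw m ⋙ tw n ≅ tw (m + n))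
  /-- `H_c^i(X)` -/
  H : ℤ → ∀ X : Scheme.{0}, (X ⟶ Spec (CommRingCat.of k)) → 𝓐
  iso : ∀ (i : ℤ) {X Y : Scheme.{0}} (e : X ≅ Y) (g : Y ⟶ Spec (CommRingCat.of k)),
    FT True k g → Nonempty (H i X (e.hom ≫ g) ≅ H i Y g)
  empty : ∀ (i : ℤ) {X : Scheme.{0}} (f : X ⟶ Spec (CommRingCat.of k)), IsEmpty X →
    IsZero (H i X f)
  localization : ∀ {Z X U : Scheme.{0}} (f : X ⟶ Spec (CommRingCat.of k)) (i : Z ⟶ X)
    (j : U ⟶ X), FT True k f → IsClosedImmersion i → IsOpenImmersion j →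
    Set.range i = (Set.range j)ᶜ → ∀ n : ℤ,
    ∃ (a : H n U (j ≫ f) ⟶ H n X f) (b : H n X f ⟶ H n Z (i ≫ f))
      (d : H n Z (i ≫ f) ⟶ H (n + 1) U (j ≫ f)) (hab : a ≫ b = 0) (hbd : b ≫ d = 0),
      (ShortComplex.mk a b hab).Exact ∧ (ShortComplex.mk b d hbd).Exact
  line : ∀ (i : ℤ) (A : Type) [CommRing A] [Algebra k A], Algebra.FiniteType k A →
    Nonempty (H (i + 2) (Spec (CommRingCat.of (Polynomial A))) (str k (Polynomial A)) ≅
      (tw (-1)).obj (H i (Spec (CommRingCat.of A)) (str k A)))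

/-- The coordinate ring of the affine hypersurface `g_0 t_0 + ⋯ + g_r t_r = 1` in the affine space
with the coordinates `x_1, …, x_n, t_0, …, t_r`. -/
abbrev Cubic {k : Type} [CommRing k] {n r : ℕ} (g : Fin (r + 1) → MvPolynomial (Fin n) k) :
    Type :=
  Hyp (MvPolynomial (Fin n) k) g

namespace Theory

variable {k : Type} [CommRing k] {𝓐 : Type u} [Category.{v} 𝓐] [Abelian 𝓐] (T : Theory k 𝓐)

theorem twIso (m n : ℤ) (h : m + n = 0) : Nonempty (T.tw m ⋙ T.tw n ≅ 𝟭 𝓐) := by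
  obtain ⟨e⟩ := T.tw_add m n
  obtain ⟨e0⟩ := T.tw_zero
  rw [h] at e
  exact ⟨e.trans e0⟩

instance twEquiv (n : ℤ) : (T.tw n).IsEquivalence := by
  obtain ⟨e⟩ := T.twIso n (-n) (by ring)
  obtain ⟨e'⟩ := T.twIso (-n) n (by ring)
  exact (CategoryTheory.Equivalence.mk (T.tw n) (T.tw (-n)) e.symm e').isEquivalence_functor

/-- `M` is a subquotient of some `H_c^j(C)(m)`, where `C` is a hypersurface
`g_0 t_0 + ⋯ + g_r t_r = 1`, each `g_i` being of the form `x_a x_b - x_c`, `x_a + x_b - x_c` or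
`x_a - s` with `s ∈ S`. -/
def FromCubic (S : Set k) (M : 𝓐) : Prop :=
  ∃ (n r : ℕ) (g : Fin (r + 1) → MvPolynomial (Fin n) k), (∀ i, IsGate S (g i)) ∧
    ∃ j m : ℤ, SubQuot M ((T.tw m).obj (T.H j (Spec (CommRingCat.of (Cubic g)))
      (str k (Cubic g))))

theorem FromCubic.tw {S : Set k} {M : 𝓐} (h : T.FromCubic S M) (a : ℤ) :
    T.FromCubic S ((T.tw a).obj M) := by
  obtain ⟨n, r, g, hg, j, m, hM⟩ := h
  obtain ⟨e⟩ := T.tw_add m a
  exact ⟨n, r, g, hg, j, m + a, (hM.map (T.tw a)).of_iso (e.app _)⟩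

theorem FromCubic.of_iso {S : Set k} {M N : 𝓐} (h : T.FromCubic S M) (e : M ≅ N) :
    T.FromCubic S N := by
  obtain ⟨n, r, g, hg, j, m, hM⟩ := h
  exact ⟨n, r, g, hg, j, m, hM.of_iso_left e⟩

/-- the dévissage property: all simple constituents of all `H_c^i(X)` come from cubics -/
def Con (S : Set k) : ∀ X : Scheme.{0}, (X ⟶ Spec (CommRingCat.of k)) → Prop :=
  fun X f => ∀ (i : ℤ) (M : 𝓐), Simple M → SubQuot M (T.H i X f) → T.FromCubic S M

theorem con_devissage (S : Set k) : IsDevissage True k (T.Con S) where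
  iso := by
    intro X Y e g hg hX i M hM h
    obtain ⟨E⟩ := T.iso i e g hg
    exact hX i M hM (h.of_iso E.symm)
  empty := by
    intro X f hX i M hM h
    exact absurd h (SubQuot.not_zero (T.empty i f hX))
  closed := by
    intro Z X U f i j hf hi hj hr hX hU n M hM h
    obtain ⟨a, b, d, hab, hbd, h1, h2⟩ := T.localization f i j hf hi hj hr n
    rcases SubQuot.exact b d hbd h2 h with h3 | h3
    · exact hX n M hM h3
    · exact hU (n + 1) M hM h3
  total := by
    intro Z X U f i j hf hi hj hr hZ hU n M hM h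
    obtain ⟨a, b, d, hab, hbd, h1, h2⟩ := T.localization f i j hf hi hj hr n
    rcases SubQuot.exact a b hab h1 h with h3 | h3
    · exact hU n M hM h3
    · exact hZ n M hM h3

theorem con_A1 (S : Set k) : A1 (T.Con S) := by
  intro A _ _ hA
  constructor
  · intro h i M hM hq
    obtain ⟨E⟩ := T.line (i - 2) A hA
    have hi : i - 2 + 2 = i := by ring
    rw [hi] at E
    have h1 := (hq.of_iso E).map (T.tw 1)
    obtain ⟨e⟩ := T.twIso (-1) 1 (by ring)
    have h2 := h1.of_iso (e.app _)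
    have := simple_obj (T.tw 1) M
    have h3 := h (i - 2) _ this h2
    obtain ⟨e'⟩ := T.twIso 1 (-1) (by ring)
    exact FromCubic.of_iso T (FromCubic.tw T h3 (-1)) (e'.app M)
  · intro h i M hM hq
    obtain ⟨E⟩ := T.line i A hA
    have h1 := (hq.map (T.tw (-1))).of_iso E.symm
    have := simple_obj (T.tw (-1)) M
    have h3 := h (i + 2) _ this h1
    obtain ⟨e'⟩ := T.twIso (-1) 1 (by ring)
    exact FromCubic.of_iso T (FromCubic.tw T h3 1) (e'.app M)

theorem con_cubic (S : Set k) (n r : ℕ) (g : Fin (r + 1) → MvPolynomial (Fin n) k)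
    (hg : ∀ i, IsGate S (g i)) : PR (T.Con S) (Hyp (MvPolynomial (Fin n) k) g) := by
  intro i M hM h
  obtain ⟨e⟩ := T.tw_zero
  exact ⟨n, r, g, hg, i, 0, h.of_iso (e.symm.app _)⟩

/-- Over a field: every simple subquotient of every `H_c^i(X)` is a subquotient of some
`H_c^j(C)(m)`, `C` a cubic hypersurface. -/
theorem fromCubic {k : Type} [Field k] (T : Theory k 𝓐) {S : Set k}
    (hS : Subfield.closure S = ⊤) (h1 : (1 : k) ∈ S) {X : Scheme.{0}}
    (f : X ⟶ Spec (CommRingCat.of k)) (hf : FT True k f) (i m : ℤ) (M : 𝓐) (hM : Simple M)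
    (h : SubQuot M ((T.tw m).obj (T.H i X f))) : T.FromCubic S M := by
  obtain ⟨e⟩ := T.twIso m (-m) (by ring)
  have h2 := (h.map (T.tw (-m))).of_iso (e.app _)
  have h3 := simple_obj (T.tw (-m)) M
  have h4 : T.Con S X f := all_of_cubics' hS h1 (T.con_devissage S) (T.con_A1 S)
    (fun n r g hg => T.con_cubic S n r g hg) f hf
  have h5 := h4 i _ h3 h2
  obtain ⟨e'⟩ := T.twIso (-m) m (by ring)
  exact FromCubic.of_iso T (FromCubic.tw T h5 m) (e'.app M)

end Theory

attribute [local instance] MvPolynomial.gradedAlgebra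

/-- `X` is a closed subscheme of a projective space over `k`. -/
def IsProjective {k : Type} [CommRing k] {X : Scheme.{0}} (f : X ⟶ Spec (CommRingCat.of k)) :
    Prop :=
  ∃ (n : ℕ) (i : X ⟶ Proj (MvPolynomial.homogeneousSubmodule (Fin (n + 1)) k)),
    IsClosedImmersion i ∧
      i ≫ Proj.toSpecZero (MvPolynomial.homogeneousSubmodule (Fin (n + 1)) k) ≫
        Spec.map (CommRingCat.ofHom
          (algebraMap k (MvPolynomial.homogeneousSubmodule (Fin (n + 1)) k 0))) = f

end Pool.Agent.TH590.JH
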